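import Pool.Agent.K1H54.GC.Stm

/-! The number of solutions of `m h' = m' h`. -/

set_option autoImplicit false

namespace Pool.Agent.K1H38.GC

open Pool.Agent.K1H54.GC Finset

lemma card_dvd (A B r : ℕ) (hAB : A ≤ B) (hr : 1 ≤ r) :
    (((Ioc A B).filter (fun m => r ∣ m)).card : ℝ) ≤ ((B : ℝ) - A) / r + 1 := by
  have h1 : ((Ioc 0 A).filter (fun m => r ∣ m)).card + ((Ioc A B).filter (fun m => r ∣ m)).card =
      ((Ioc 0 B).filter (fun m => r ∣ m)).card := by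
    rw [← card_union_of_disjoint, ← filter_union, Ioc_union_Ioc_eq_Ioc (Nat.zero_le A) hAB]
    rw [disjoint_left]
    intro x hx hx'
    rw [mem_filter, mem_Ioc] at hx hx'
    omega
  rw [Nat.Ioc_filter_dvd_card_eq_div, Nat.Ioc_filter_dvd_card_eq_div] at h1
  have h2 : (((Ioc A B).filter (fun m => r ∣ m)).card : ℝ) = ((B / r : ℕ) : ℝ) - ((A / r : ℕ) : ℝ) := by
    have : ((A / r : ℕ) : ℝ) + (((Ioc A B).filter (fun m => r ∣ m)).card : ℝ) = ((B / r : ℕ) : ℝ) := by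
      exact_mod_cast h1
    linarith
  have hr0 : (0 : ℝ) < r := by exact_mod_cast hr
  have h3 : ((B / r : ℕ) : ℝ) ≤ (B : ℝ) / r := Nat.cast_div_le
  have h4 : (A : ℝ) / r ≤ ((A / r : ℕ) : ℝ) + 1 := by
    rw [div_le_iff₀ hr0]
    have := Nat.lt_div_mul_add (a := A) (b := r) (by omega)
    have h5 : A ≤ (A / r + 1) * r := by
      rw [add_mul, one_mul]; omega
    exact_mod_cast h5
  rw [h2, sub_div]
  linarith

lemma fiber_le (A B j : ℕ) (hAB : A ≤ B) (h h' : ℕ) (hh : 1 ≤ h) (hh' : 1 ≤ h') :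
    (((sols A B j).filter (fun p => (p.1.2, p.2.2) = (h, h'))).card : ℝ) ≤
      ((B : ℝ) - A) * ((Nat.gcd h h' : ℝ) / h) + 1 := by
  have hg : 0 < Nat.gcd h h' := Nat.gcd_pos_of_pos_left _ hh
  have hdv : Nat.gcd h h' ∣ h := Nat.gcd_dvd_left _ _
  have hr : 1 ≤ h / Nat.gcd h h' := Nat.div_pos (Nat.le_of_dvd hh hdv) hg
  have h1 : ((sols A B j).filter (fun p => (p.1.2, p.2.2) = (h, h'))).card ≤
      ((Ioc A B).filter (fun m => h / Nat.gcd h h' ∣ m)).card := by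
    refine card_le_card_of_injOn (fun p => p.1.1) ?_ ?_
    · rintro ⟨⟨m, a⟩, ⟨m', a'⟩⟩ hp
      simp only [sols, coe_filter, mem_filter, mem_product, Set.mem_setOf_eq, Prod.mk.injEq] at hp
      obtain ⟨⟨⟨⟨hm, -⟩, -⟩, he⟩, rfl, rfl⟩ := hp
      simp only [coe_filter, Set.mem_setOf_eq]
      refine ⟨hm, ?_⟩
      have h2 : Nat.Coprime (a / Nat.gcd a a') (a' / Nat.gcd a a') :=
        Nat.coprime_div_gcd_div_gcd hg
      refine h2.dvd_of_dvd_mul_right ?_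
      have h3 : m * (a' / Nat.gcd a a') * Nat.gcd a a' = m' * (a / Nat.gcd a a') * Nat.gcd a a' := by
        rw [mul_assoc, mul_assoc, Nat.div_mul_cancel (Nat.gcd_dvd_left _ _),
          Nat.div_mul_cancel (Nat.gcd_dvd_right _ _), he]
      have h4 := Nat.eq_of_mul_eq_mul_right hg h3
      rw [h4]
      exact Dvd.intro_left _ rfl
    · rintro ⟨⟨m, a⟩, ⟨m', a'⟩⟩ hp ⟨⟨n, b⟩, ⟨n', b'⟩⟩ hq hpq
      simp only [sols, coe_filter, mem_filter, mem_product, Set.mem_setOf_eq, Prod.mk.injEq] at hp hq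
      obtain ⟨⟨-, he⟩, rfl, rfl⟩ := hp
      obtain ⟨⟨-, he'⟩, rfl, rfl⟩ := hq
      simp only at hpq
      subst hpq
      have : m' * b = n' * b := by rw [← he, ← he']
      have := Nat.eq_of_mul_eq_mul_right (by omega) this
      rw [this]
  have h2 := card_dvd A B (h / Nat.gcd h h') hAB hr
  have h3 : ((B : ℝ) - A) / ((h / Nat.gcd h h' : ℕ) : ℝ) = ((B : ℝ) - A) * ((Nat.gcd h h' : ℝ) / h) := by
    have hg' : (Nat.gcd h h' : ℝ) ≠ 0 := by exact_mod_cast hg.ne'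
    have hh0 : (h : ℝ) ≠ 0 := by positivity
    rw [Nat.cast_div hdv hg']
    field_simp
  rw [h3] at h2
  exact (by exact_mod_cast h1 : (((sols A B j).filter (fun p => (p.1.2, p.2.2) = (h, h'))).card : ℝ) ≤
    (((Ioc A B).filter (fun m => h / Nat.gcd h h' ∣ m)).card : ℝ)).trans h2

/-- harmonic sums over multiples -/
lemma sum_mult (j d : ℕ) (hd : 1 ≤ d) :
    ∑ h ∈ (Icc 1 j).filter (fun h => d ∣ h), (d : ℝ) / h ≤ ∑ e ∈ Icc 1 j, (e : ℝ)⁻¹ := by
  have hinj : Set.InjOn (fun h : ℕ => h / d) ((Icc 1 j).filter (fun h => d ∣ h)) := by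
    intro a ha b hb hab
    simp only [coe_filter, Set.mem_setOf_eq] at ha hb
    have h1 := Nat.div_mul_cancel ha.2
    have h2 := Nat.div_mul_cancel hb.2
    simp only at hab
    rw [← h1, ← h2, hab]
  have h1 : ∑ h ∈ (Icc 1 j).filter (fun h => d ∣ h), (d : ℝ) / h =
      ∑ e ∈ ((Icc 1 j).filter (fun h => d ∣ h)).image (fun h : ℕ => h / d), (e : ℝ)⁻¹ := by
    rw [sum_image hinj]
    refine sum_congr rfl ?_
    intro h hh
    rw [mem_filter] at hh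
    have hd0 : (d : ℝ) ≠ 0 := by positivity
    rw [Nat.cast_div hh.2 hd0, inv_div]
  rw [h1]
  refine sum_le_sum_of_subset_of_nonneg ?_ ?_
  · intro e he
    rw [mem_image] at he
    obtain ⟨h, hh, rfl⟩ := he
    rw [mem_filter, mem_Icc] at hh
    rw [mem_Icc]
    refine ⟨Nat.div_pos (Nat.le_of_dvd (by omega) hh.2) hd, ?_⟩
    exact (Nat.div_le_self _ _).trans hh.1.2
  · intro e _ _
    positivity

lemma sum_gcd (j : ℕ) :
    ∑ h ∈ Icc 1 j, ∑ h' ∈ Icc 1 j, ((Nat.gcd h h' : ℝ) / h) ≤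
      j * (∑ e ∈ Icc 1 j, (e : ℝ)⁻¹) ^ 2 := by
  have h1 : ∀ h ∈ Icc 1 j, ∀ h' ∈ Icc 1 j, ((Nat.gcd h h' : ℝ) / h) ≤
      ∑ d ∈ Icc 1 j, (if d ∣ h then (d : ℝ) / h else 0) * (if d ∣ h' then 1 else 0) := by
    intro h hh h' hh'
    rw [mem_Icc] at hh hh'
    have hg : Nat.gcd h h' ∈ Icc 1 j := by
      rw [mem_Icc]
      exact ⟨Nat.gcd_pos_of_pos_left _ hh.1, (Nat.le_of_dvd hh.1 (Nat.gcd_dvd_left _ _)).trans hh.2⟩
    have := single_le_sum (f := fun d : ℕ => (if d ∣ h then (d : ℝ) / h else 0) *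
      (if d ∣ h' then 1 else 0)) (s := Icc 1 j) (fun d _ => by positivity) hg
    simpa [Nat.gcd_dvd_left, Nat.gcd_dvd_right] using this
  calc ∑ h ∈ Icc 1 j, ∑ h' ∈ Icc 1 j, ((Nat.gcd h h' : ℝ) / h)
      ≤ ∑ h ∈ Icc 1 j, ∑ h' ∈ Icc 1 j, ∑ d ∈ Icc 1 j,
        (if d ∣ h then (d : ℝ) / h else 0) * (if d ∣ h' then 1 else 0) :=
        sum_le_sum fun h hh => sum_le_sum fun h' hh' => h1 h hh h' hh'
    _ = ∑ d ∈ Icc 1 j, (∑ h ∈ Icc 1 j, (if d ∣ h then (d : ℝ) / h else 0)) *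
        (∑ h' ∈ Icc 1 j, (if d ∣ h' then (1 : ℝ) else 0)) := by
        have e1 : ∀ h ∈ Icc 1 j, ∑ h' ∈ Icc 1 j, ∑ d ∈ Icc 1 j,
            (if d ∣ h then (d : ℝ) / h else 0) * (if d ∣ h' then (1 : ℝ) else 0) =
            ∑ d ∈ Icc 1 j, (if d ∣ h then (d : ℝ) / h else 0) *
              ∑ h' ∈ Icc 1 j, (if d ∣ h' then (1 : ℝ) else 0) := by
          intro h _
          rw [sum_comm]
          exact sum_congr rfl fun d _ => by rw [mul_sum]
        rw [sum_congr rfl e1, sum_comm]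
        exact sum_congr rfl fun d _ => by rw [sum_mul]
    _ ≤ ∑ d ∈ Icc 1 j, (∑ e ∈ Icc 1 j, (e : ℝ)⁻¹) * ((j : ℝ) * (d : ℝ)⁻¹) := by
        refine sum_le_sum ?_
        intro d hd
        rw [mem_Icc] at hd
        refine mul_le_mul ?_ ?_ (sum_nonneg fun h' _ => by positivity)
          (sum_nonneg fun e _ => by positivity)
        · rw [← sum_filter]
          exact sum_mult j d hd.1
        · rw [← sum_filter, sum_const, nsmul_eq_mul, mul_one]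
          have e2 : (Icc 1 j).filter (fun h => d ∣ h) = (Ioc 0 j).filter (fun h => d ∣ h) := by
            ext x
            simp only [mem_filter, mem_Icc, mem_Ioc]
            constructor
            · rintro ⟨⟨h1, h2⟩, h3⟩; exact ⟨⟨by omega, h2⟩, h3⟩
            · rintro ⟨⟨h1, h2⟩, h3⟩; exact ⟨⟨by omega, h2⟩, h3⟩
          rw [e2, Nat.Ioc_filter_dvd_card_eq_div, ← div_eq_mul_inv]
          exact Nat.cast_div_le
    _ = j * (∑ e ∈ Icc 1 j, (e : ℝ)⁻¹) ^ 2 := by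
        rw [← mul_sum, ← mul_sum]
        ring

lemma harm_le (j : ℕ) : ∑ e ∈ Icc 1 j, (e : ℝ)⁻¹ ≤ 1 + Real.log j := by
  have h := harmonic_le_one_add_log j
  rw [harmonic_eq_sum_Icc] at h
  push_cast at h
  exact h

theorem t_CNT : S_CNT := by
  intro A B j hAB hj
  have hAB' : (0 : ℝ) ≤ (B : ℝ) - A := by
    have : (A : ℝ) ≤ B := by exact_mod_cast hAB
    linarith
  have h1 : (sols A B j).card = ∑ b ∈ Icc 1 j ×ˢ Icc 1 j,
      ((sols A B j).filter (fun p => (p.1.2, p.2.2) = b)).card := by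
    refine card_eq_sum_card_fiberwise ?_
    rintro ⟨⟨m, a⟩, ⟨m', a'⟩⟩ hp
    simp only [sols, coe_filter, mem_product, Set.mem_setOf_eq] at hp
    simp only [coe_product, Set.mem_prod, mem_coe]
    exact ⟨hp.1.1.2, hp.1.2.2⟩
  have h0 : (0 : ℝ) ≤ ∑ e ∈ Icc 1 j, (e : ℝ)⁻¹ := sum_nonneg fun e _ => by positivity
  calc ((sols A B j).card : ℝ) = ∑ b ∈ Icc 1 j ×ˢ Icc 1 j,
      (((sols A B j).filter (fun p => (p.1.2, p.2.2) = b)).card : ℝ) := by
        rw [h1]; push_cast; rfl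
    _ ≤ ∑ b ∈ Icc 1 j ×ˢ Icc 1 j, (((B : ℝ) - A) * ((Nat.gcd b.1 b.2 : ℝ) / b.1) + 1) := by
        refine sum_le_sum ?_
        rintro ⟨h, h'⟩ hb
        rw [mem_product, mem_Icc, mem_Icc] at hb
        exact fiber_le A B j hAB h h' hb.1.1 hb.2.1
    _ = ((B : ℝ) - A) * (∑ h ∈ Icc 1 j, ∑ h' ∈ Icc 1 j, ((Nat.gcd h h' : ℝ) / h)) + (j : ℝ) ^ 2 := by
        rw [sum_add_distrib, ← mul_sum, sum_product, sum_const, card_product, Nat.card_Icc]
        simp only [nsmul_eq_mul, mul_one, Nat.add_sub_cancel]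
        push_cast
        ring
    _ ≤ ((B : ℝ) - A) * (j * (∑ e ∈ Icc 1 j, (e : ℝ)⁻¹) ^ 2) + (j : ℝ) ^ 2 := by
        gcongr
        exact sum_gcd j
    _ ≤ ((B : ℝ) - A) * (j * (1 + Real.log j) ^ 2) + (j : ℝ) ^ 2 := by
        gcongr
        exact harm_le j
    _ = ((B : ℝ) - A) * j * (1 + Real.log j) ^ 2 + (j : ℝ) ^ 2 := by ring

end Pool.Agent.K1H38.GC
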