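import Pool.Agent.K1H54.GC.Stm2
import Pool.Agent.K1H89.GC.Mom

/-!
# Piece MOM2 of project GC: the second moment, congruence form
-/

set_option autoImplicit false

namespace Pool.Agent.K1H38.GC

open Finset Pool.Agent.K1H54.GC Pool.Agent.K1H89.GC

lemma solq_of {q : ℕ} [Fact q.Prime] {A B j : ℕ} (hj : j ≤ A) {t t' : ℕ × ℕ}
    (ht : t ∈ Ioc A B ×ˢ Icc 1 j) (ht' : t' ∈ Ioc A B ×ˢ Icc 1 j) (h0 : gq q t' ≠ 0)
    (h : gq q t' = gq q t) : (t, t') ∈ solq q A B j := by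
  unfold solq
  rw [mem_filter, mem_product]
  refine ⟨⟨ht, ht'⟩, ?_⟩
  simp only
  rw [mem_product, mem_Ioc, mem_Icc] at ht ht'
  obtain ⟨m, k⟩ := t
  obtain ⟨m', k'⟩ := t'
  simp only at ht ht' ⊢
  unfold gq at h h0
  simp only at h h0
  have hm' : ((m' : ℕ) : ZMod q) ≠ 0 := fun e => h0 (by rw [e, inv_zero, mul_zero])
  have hm : ((m : ℕ) : ZMod q) ≠ 0 := fun e => h0 (by rw [h, e, inv_zero, mul_zero])
  rw [← div_eq_mul_inv, ← div_eq_mul_inv, div_eq_div_iff hm' hm] at h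
  rw [Nat.cast_sub (by omega), Nat.cast_sub (by omega)] at h
  have h2 : ((m * k' : ℕ) : ZMod q) = ((m' * k : ℕ) : ZMod q) := by
    push_cast
    linear_combination -h
  exact (ZMod.natCast_eq_natCast_iff _ _ _).1 h2

lemma pair_bound2 {q : ℕ} [Fact q.Prime] {A B j : ℕ} (hj : j ≤ A) {t t' : ℕ × ℕ}
    (ht : t ∈ Ioc A B ×ˢ Icc 1 j) (ht' : t' ∈ Ioc A B ×ˢ Icc 1 j) :
    ‖∑ χ : DirichletCharacter ℂ q, χ (gq q t')⁻¹ * χ (gq q t)‖ ≤
      if (t, t') ∈ solq q A B j then (q : ℝ) else 0 := by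
  by_cases h0 : gq q t' = 0
  · have : ∑ χ : DirichletCharacter ℂ q, χ (gq q t')⁻¹ * χ (gq q t) = 0 := by
      apply Finset.sum_eq_zero
      intro χ _
      rw [h0, inv_zero, MulChar.map_zero, zero_mul]
    rw [this, norm_zero]
    split_ifs <;> positivity
  · rw [DirichletCharacter.sum_char_inv_mul_char_eq ℂ (isUnit_iff_ne_zero.mpr h0)]
    by_cases h : gq q t' = gq q t
    · rw [if_pos h, if_pos (solq_of hj ht ht' h0 h), Complex.norm_natCast]
      exact_mod_cast Nat.totient_le q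
    · rw [if_neg h, norm_zero]
      split_ifs <;> positivity

/-- **MOM2** -/
theorem t_MOM2 : S_MOM2 := by
  intro q _ U1 U2 j
  set T := Ioc (U1 + j) (U2 + j) ×ˢ Icc 1 j with hT
  have hj : j ≤ U1 + j := Nat.le_add_left _ _
  have e1 : ((∑ χ : DirichletCharacter ℂ q, ‖ZZ χ U1 U2 j‖ ^ 2 : ℝ) : ℂ) =
      ∑ t ∈ T, ∑ t' ∈ T, cc t * (starRingEnd ℂ) (cc t') *
        ∑ χ : DirichletCharacter ℂ q, χ (gq q t')⁻¹ * χ (gq q t) := by
    have e2 : ∀ χ : DirichletCharacter ℂ q, ((‖ZZ χ U1 U2 j‖ ^ 2 : ℝ) : ℂ) =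
        ∑ t ∈ T, ∑ t' ∈ T, cc t * (starRingEnd ℂ) (cc t') * (χ (gq q t')⁻¹ * χ (gq q t)) := by
      intro χ
      have h3 : ((‖ZZ χ U1 U2 j‖ ^ 2 : ℝ) : ℂ) = ZZ χ U1 U2 j * (starRingEnd ℂ) (ZZ χ U1 U2 j) := by
        rw [Complex.mul_conj, Complex.normSq_eq_norm_sq]
      rw [h3, ZZ_eq, map_sum, Finset.sum_mul_sum]
      refine Finset.sum_congr rfl fun t _ => Finset.sum_congr rfl fun t' _ => ?_
      rw [map_mul, conj_char]
      ring
    rw [Complex.ofReal_sum, Finset.sum_congr rfl fun χ _ => e2 χ, Finset.sum_comm]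
    refine Finset.sum_congr rfl fun t _ => ?_
    rw [Finset.sum_comm]
    refine Finset.sum_congr rfl fun t' _ => ?_
    rw [Finset.mul_sum]
  have h0 : 0 ≤ ∑ χ : DirichletCharacter ℂ q, ‖ZZ χ U1 U2 j‖ ^ 2 :=
    Finset.sum_nonneg fun _ _ => by positivity
  rw [← Real.norm_of_nonneg h0, ← Complex.norm_real, e1]
  calc _ ≤ ∑ t ∈ T, ∑ t' ∈ T, ‖cc t * (starRingEnd ℂ) (cc t') *
        ∑ χ : DirichletCharacter ℂ q, χ (gq q t')⁻¹ * χ (gq q t)‖ :=
        (norm_sum_le _ _).trans (Finset.sum_le_sum fun t _ => norm_sum_le _ _)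
    _ ≤ ∑ t ∈ T, ∑ t' ∈ T, if (t, t') ∈ solq q (U1 + j) (U2 + j) j then (q : ℝ) else 0 := by
        refine Finset.sum_le_sum fun t ht => Finset.sum_le_sum fun t' ht' => ?_
        rw [norm_mul, norm_mul, RCLike.norm_conj]
        refine le_trans ?_ (pair_bound2 (q := q) hj ht ht')
        have h5 : ‖cc t‖ * ‖cc t'‖ ≤ 1 := mul_le_one₀ (norm_cc _) (norm_nonneg _) (norm_cc _)
        exact mul_le_of_le_one_left (norm_nonneg _) h5
    _ = (q : ℝ) * ((solq q (U1 + j) (U2 + j) j).card : ℝ) := by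
        rw [← Finset.sum_product' T T fun t t' =>
          if (t, t') ∈ solq q (U1 + j) (U2 + j) j then (q : ℝ) else 0]
        have e6 : solq q (U1 + j) (U2 + j) j ⊆ T ×ˢ T := by
          unfold solq
          exact Finset.filter_subset _ _
        simp only [Prod.mk.eta]
        rw [← Finset.sum_filter, Finset.filter_mem_eq_inter, Finset.inter_eq_right.mpr e6,
          Finset.sum_const, nsmul_eq_mul, mul_comm]

end Pool.Agent.K1H38.GC
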